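import Pool.Agent.H71.FX.Targets

/-!
# Row EA of fxm_modules (MP_64fb07_lc): two unary functions, the prefix `∃∀`
-/

set_option autoImplicit false

namespace Pool.Agent.H37.FX

open Pool.Agent.H71.FX Pool.Agent.H71.PF Pool.Agent.H8.PL

theorem pf_EA (rc : T_RC) (mr : T_MR) (bc : T_BC) (rs : T_RS) (en : T_EN) (d1 : T_D1) (d2 : T_D2)
    (d5 : T_D5) (dk : T_DK) (tp : T_TP) : T_EA := by
  intro Q _ U Hh Vv
  obtain ⟨N, hN⟩ : ∃ N, N = Nat.card Q := ⟨_, rfl⟩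
  obtain ⟨e, he⟩ : ∃ e : Q → ℕ, e = fun q => ((Finite.equivFin Q q : Fin (Nat.card Q)) : ℕ) :=
    ⟨_, rfl⟩
  have hinj : Function.Injective e := by
    rw [he]
    exact Fin.val_injective.comp (Finite.equivFin Q).injective
  have hlt : ∀ q, e q < N := by
    intro q
    rw [he, hN]
    exact (Finite.equivFin Q q).2
  have hA : DB (fun _ f g _ y => A1 (15 + N) e U Hh Vv f g y) :=
    (dk (15 + N) true).1.and ((dk (15 + N) true).2.1.imp ((d1 Q e true).and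
      ((d2 Q e true).1.and ((d2 Q e true).2.1.and ((d2 Q e true).2.2.1.and
        (d5 Q e U Hh Vv true))))))
  have hB : DB (fun _ f g x y => (f y = y ∧ (dcd e f g).cr y) → g^[14 + N] y = x) :=
    ((dk (15 + N) true).2.1.and (d2 Q e true).2.2.2).imp (dk (14 + N) true).2.2.1
  obtain ⟨φ, hφ⟩ := hA.and hB
  refine ⟨φ, 15 + N, by omega, ?_, ?_⟩
  · rintro n hn ⟨f, g, x, h⟩
    have h1 : ∀ y, A1 (15 + N) e U Hh Vv f g y := fun y => ((hφ _ f g x y).1 (h y)).1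
    have h2 : ∀ y, (f y = y ∧ (dcd e f g).cr y) → g^[14 + N] y = x :=
      fun y => ((hφ _ f g x y).1 (h y)).2
    obtain ⟨m, hm, hcr⟩ := rs (Fin n) Q f g (15 + N) e U Hh Vv (by omega) h1
    have hBk : ∀ y, Bk (15 + N) f g y := fun y => (h1 y).1
    have h3 : ∀ z z', m.cr z → m.cr z' → z = z' := by
      intro z z' hz hz'
      have h4 := h2 z.1 ⟨z.2, (hcr z).1 hz⟩
      have h5 := h2 z'.1 ⟨z'.2, (hcr z').1 hz'⟩
      have h6 : g^[15 + N] z.1 = g^[15 + N] z'.1 := by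
        have e1 : 15 + N = (14 + N) + 1 := by omega
        rw [e1, Function.iterate_succ_apply', Function.iterate_succ_apply', h4, h5]
      rw [(hBk z.1).1, (hBk z'.1).1] at h6
      exact Subtype.ext h6
    obtain ⟨h4, h5⟩ := bc (Fin n) f g (15 + N) inferInstance (by omega) hBk
    obtain ⟨W, H, hW, hH, hc, t, ht⟩ := rc {x // f x = x} Q m U Hh Vv (h5 ⟨⟨0, hn⟩⟩)
      inferInstance hm h3
    refine ⟨W, H, hW, hH, ?_, t, ht⟩
    rw [hc, Nat.card_fin] at h4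
    exact h4
  · intro W H t hW hH hHW hWH ht
    obtain ⟨hok, hcr⟩ := mr Q U Hh Vv W H t hW hH hHW hWH ht
    obtain ⟨f, g, h1, h2, h3, _, h5⟩ := en (Fin W × Fin H) Q (MR W H t) e N U Hh Vv hinj hlt hok
    obtain ⟨x, hx1, hx2⟩ : ∃ x, (∀ y, (f y = y ∧ (dcd e f g).cr y) → g^[14 + N] y = x) ∧
        f x = g x := by
      by_cases hb : ∃ b, f b = b ∧ (dcd e f g).cr b
      · obtain ⟨b, hb1, hb2⟩ := hb
        refine ⟨g^[14 + N] b, ?_, h5 b hb1⟩
        rintro y ⟨hy1, hy2⟩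
        have h6 : y.1 = b.1 := hcr _ _ ((h2 y hy1).1 hy2) ((h2 b hb1).1 hb2)
        rw [h3 y b hy1 hb1 h6]
      · obtain ⟨i, _, hi⟩ := (h1 ((⟨0, hW⟩, ⟨0, hH⟩), ⟨0, by omega⟩)).1.2.1
        exact ⟨_, fun y hy => absurd ⟨y, hy⟩ hb, h5 _ hi⟩
    have hcard : Nat.card ((Fin W × Fin H) × Fin (15 + N)) = (15 + N) * (W * H) := by
      rw [Nat.card_prod, Nat.card_prod, Nat.card_fin, Nat.card_fin, Nat.card_fin, Nat.mul_comm]
    obtain ⟨E⟩ : Nonempty ((Fin W × Fin H) × Fin (15 + N) ≃ Fin ((15 + N) * (W * H))) :=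
      ⟨Finite.equivFinOfCardEq hcard⟩
    refine ⟨fun b => E (f (E.symm b)), fun b => E (g (E.symm b)), E x, ?_, ?_⟩
    · intro y
      have h6 := (tp _ _ E φ f g x (E.symm y)).2 ((hφ _ f g x (E.symm y)).2 ⟨h1 _, hx1 _⟩)
      rw [E.apply_symm_apply] at h6
      exact h6
    · show E (f (E.symm (E x))) = E (g (E.symm (E x)))
      rw [E.symm_apply_apply, hx2]

end Pool.Agent.H37.FX
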