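import Pool.Agent.H71.FX.Targets

/-!
# Row S2 of fxm_modules (MP_64fb07_lc): one function symbol, the prefix `∃∀`
-/

set_option autoImplicit false

namespace Pool.Agent.H37.FX

open Pool.Agent.H71.FX Pool.Agent.H71.PF Pool.Agent.H8.PL

private def gT (i k : ℕ) (t : Tm) : Tm :=
  .app i (k := k) (fun j : Fin k => if j.1 = 0 then .var 0 else t)

private def fT (i k : ℕ) (t : Tm) : Tm :=
  .app i (k := k) (fun j : Fin k => if j.1 = 0 then t else .var 0)

private def wT (i k : ℕ) : List Bool → Tm → Tm
  | [], t => t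
  | true :: w, t => gT i k (wT i k w t)
  | false :: w, t => fT i k (wT i k w t)

private def vT (b : Bool) : Tm := .var (bif b then 1 else 0)

private def tr (i k : ℕ) : B2 → QF
  | .eq w w' a b => .eq (wT i k w (vT a)) (wT i k w' (vT b))
  | .neg φ => .neg (tr i k φ)
  | .and φ ψ => .and (tr i k φ) (tr i k ψ)

private theorem vT_vars (b : Bool) : (vT b).Vars 2 := by
  show (bif b then 1 else 0) < 2
  cases b
  · exact Nat.zero_lt_two
  · exact Nat.one_lt_two

private theorem wT_vars (i k : ℕ) (t : Tm) (ht : t.Vars 2) : ∀ w, (wT i k w t).Vars 2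
  | [] => ht
  | true :: w => by
    intro j
    show (if j.1 = 0 then Tm.var 0 else wT i k w t).Vars 2
    split_ifs
    · exact Nat.zero_lt_two
    · exact wT_vars i k t ht w
  | false :: w => by
    intro j
    show (if j.1 = 0 then wT i k w t else Tm.var 0).Vars 2
    split_ifs
    · exact wT_vars i k t ht w
    · exact Nat.zero_lt_two

private theorem wT_voc (i k : ℕ) (t : Tm) (ht : t.Voc (fun a l => a = i ∧ l = k)) :
    ∀ w, (wT i k w t).Voc (fun a l => a = i ∧ l = k)
  | [] => ht
  | true :: w => by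
    refine ⟨⟨rfl, rfl⟩, fun j => ?_⟩
    show (if j.1 = 0 then Tm.var 0 else wT i k w t).Voc _
    split_ifs
    · trivial
    · exact wT_voc i k t ht w
  | false :: w => by
    refine ⟨⟨rfl, rfl⟩, fun j => ?_⟩
    show (if j.1 = 0 then wT i k w t else Tm.var 0).Voc _
    split_ifs
    · exact wT_voc i k t ht w
    · trivial

private theorem tr_vars (i k : ℕ) : ∀ φ : B2, (tr i k φ).Vars 2
  | .eq w w' a b => ⟨wT_vars i k _ (vT_vars a) w, wT_vars i k _ (vT_vars b) w'⟩
  | .neg φ => tr_vars i k φ
  | .and φ ψ => ⟨tr_vars i k φ, tr_vars i k ψ⟩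

private theorem tr_voc (i k : ℕ) : ∀ φ : B2, (tr i k φ).Voc (fun a l => a = i ∧ l = k) 0
  | .eq w w' a b => ⟨wT_voc i k (vT a) trivial w, wT_voc i k (vT b) trivial w'⟩
  | .neg φ => tr_voc i k φ
  | .and φ ψ => ⟨tr_voc i k φ, tr_voc i k ψ⟩

section
variable {α : Type} (F : ℕ → List α → α) (R : ℕ → List α → Prop) (i k : ℕ) (f g : α → α) (v : ℕ → α)
  (hf : ∀ z, F i (List.ofFn fun j : Fin k => if j.1 = 0 then z else v 0) = f z)
  (hg : ∀ z, F i (List.ofFn fun j : Fin k => if j.1 = 0 then v 0 else z) = g z)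
include hf hg

private theorem wT_val (t : Tm) : ∀ w, (wT i k w t).val F v = wv f g w (t.val F v)
  | [] => rfl
  | true :: w => by
    show F i (List.ofFn fun j : Fin k => (if j.1 = 0 then Tm.var 0 else wT i k w t).val F v) =
      g (wv f g w (t.val F v))
    rw [← wT_val t w, ← hg]
    congr 2
    funext j
    split_ifs
    · rfl
    · rfl
  | false :: w => by
    show F i (List.ofFn fun j : Fin k => (if j.1 = 0 then wT i k w t else Tm.var 0).val F v) =
      f (wv f g w (t.val F v))
    rw [← wT_val t w, ← hf]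
    congr 2
    funext j
    split_ifs
    · rfl
    · rfl

omit hf hg in
private theorem vT_val (b : Bool) : (vT b).val F v = bif b then v 1 else v 0 := by
  cases b <;> rfl

private theorem tr_sat : ∀ φ : B2, (tr i k φ).Sat F R v ↔ φ.Sat f g (v 0) (v 1)
  | .eq w w' a b => by
    show (wT i k w (vT a)).val F v = (wT i k w' (vT b)).val F v ↔
      wv f g w (bif a then v 1 else v 0) = wv f g w' (bif b then v 1 else v 0)
    rw [wT_val F i k f g v hf hg, wT_val F i k f g v hf hg, vT_val, vT_val]
  | .neg φ => not_congr (tr_sat φ)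
  | .and φ ψ => and_congr (tr_sat φ) (tr_sat ψ)

end

theorem pf_S2 : T_S2 := by
  classical
  intro φ i k hk
  refine ⟨tr i k φ, tr_vars i k φ, tr_voc i k φ, fun n => ⟨?_, ?_⟩⟩
  · rintro ⟨hn, F, R, h⟩
    refine ⟨hn, ?_⟩
    obtain ⟨a, ha⟩ := h (fun _ => ⟨0, hn⟩)
    refine ⟨fun z => F i (List.ofFn fun j : Fin k => if j.1 = 0 then z else a),
      fun z => F i (List.ofFn fun j : Fin k => if j.1 = 0 then a else z), a, rfl, fun y => ?_⟩
    have h1 : (tr i k φ).Sat F R (Function.update (Function.update (fun _ => ⟨0, hn⟩) 0 a) 1 y) :=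
      ha y
    exact (tr_sat F R i k _ _ _ (fun z => rfl) (fun z => rfl) φ).1 h1
  · rintro ⟨hn, f, g, x, hx, h⟩
    refine ⟨hn, ?_⟩
    obtain ⟨F, hF⟩ : ∃ F : ℕ → List (Fin n) → Fin n, F = fun _ l =>
      if h1 : ∃ a, l = List.ofFn (fun j : Fin k => if j.1 = 0 then a else x) then f h1.choose
      else if h2 : ∃ a, l = List.ofFn (fun j : Fin k => if j.1 = 0 then x else a) then g h2.choose
      else x := ⟨_, rfl⟩
    have i0 : Fin k := ⟨0, by omega⟩
    have hFf : ∀ z, F i (List.ofFn fun j : Fin k => if j.1 = 0 then z else x) = f z := by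
      intro z
      have h1 : ∃ a, List.ofFn (fun j : Fin k => if j.1 = 0 then z else x) =
          List.ofFn (fun j : Fin k => if j.1 = 0 then a else x) := ⟨z, rfl⟩
      rw [hF]
      show (if h1 : ∃ a, List.ofFn (fun j : Fin k => if j.1 = 0 then z else x) =
        List.ofFn (fun j : Fin k => if j.1 = 0 then a else x) then f h1.choose else _) = f z
      rw [dif_pos h1]
      have h2 := congrFun (List.ofFn_injective h1.choose_spec) ⟨0, by omega⟩
      have h3 : z = h1.choose := h2
      rw [← h3]
    have hFg : ∀ z, F i (List.ofFn fun j : Fin k => if j.1 = 0 then x else z) = g z := by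
      intro z
      rw [hF]
      show (if h1 : ∃ a, List.ofFn (fun j : Fin k => if j.1 = 0 then x else z) =
        List.ofFn (fun j : Fin k => if j.1 = 0 then a else x) then f h1.choose
        else if h2 : ∃ a, List.ofFn (fun j : Fin k => if j.1 = 0 then x else z) =
          List.ofFn (fun j : Fin k => if j.1 = 0 then x else a) then g h2.choose else x) = g z
      split_ifs with h1 h2
      · have h3 := congrFun (List.ofFn_injective h1.choose_spec)
        have h4 : x = h1.choose := h3 ⟨0, by omega⟩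
        have h5 : z = x := h3 ⟨1, by omega⟩
        rw [← h4, h5, hx]
      · have h3 : z = h2.choose := congrFun (List.ofFn_injective h2.choose_spec) ⟨1, by omega⟩
        rw [← h3]
      · exact absurd ⟨z, rfl⟩ h2
    refine ⟨F, fun _ _ => True, fun v => ⟨x, fun y => ?_⟩⟩
    show (tr i k φ).Sat F _ (Function.update (Function.update v 0 x) 1 y)
    exact (tr_sat F _ i k f g _ hFf hFg φ).2 (h y)

end Pool.Agent.H37.FX
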